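import Pool.Agent.H15.Sig.ThrFin

set_option autoImplicit false

/-!
The second supremum of Q1 of MP_56f757_an for large radii: it is given by `z + 1/z` up to
`lam = r ^ 4 / 2` (with an explicit error) and not beyond.

Upper part: after a rotation `b_1 = β ≥ 0`; the area theorem bounds the other coefficients by
`sqrt (1 - β ^ 2)` and a stability form of the area theorem bounds their real parts by a multiple of
`1 - β ^ 2`; the logarithm of the quotient of the derivatives has mean zero, and the weight
`|1 - β z^{-2}| ^ lam` is compared with the one for `β = 1` by concentration inequalities.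
Lower part: explicit competitor `z - (1 - c ^ 2) / (z + c)` with `c` of size `1 / r`.
-/

namespace Pool.Agent.Results.MP_56f757_an.DerivThreshold

open Pool.Agent.H15.Sig

/-- Let `r ≥ 30000` and `ε > 0`, `ε * r ≥ 1100`. If `0 < lam ≤ (1/2 - ε) * r ^ 4`, the supremum over
the class Sigma of the integral mean of order `lam` of the derivative on `|z| = r` is attained by
`z + 1/z`, and the functions attaining it are exactly the `z + c / z` with `|c| = 1`. If
`lam ≥ (1/2 + ε) * r ^ 4`, the function `z - (1 - c ^ 2) / (z + c)` of the class, for some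
`0 ≤ c < 1`, gives a larger value than `z + 1/z`. -/
theorem result (r ε : ℝ) (hr : 30000 ≤ r) (hε : 0 < ε) (hεr : 1100 ≤ ε * r) :
    (∀ lam : ℝ, 0 < lam → lam ≤ (1 / 2 - ε) * r ^ 4 →
      IsGreatest {x : ℝ | ∃ F : ℂ → ℂ, ClassSigma F ∧ x = integralMean lam r (deriv F)}
        (integralMean lam r (fun z => 1 - (z ^ 2)⁻¹)) ∧
      ∀ F : ℂ → ℂ, ClassSigma F →
        (integralMean lam r (deriv F) = integralMean lam r (fun z => 1 - (z ^ 2)⁻¹) ↔
          ∃ c : ℂ, ‖c‖ = 1 ∧ ∀ z : ℂ, 1 < ‖z‖ → F z = z + c / z)) ∧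
    (∀ lam : ℝ, (1 / 2 + ε) * r ^ 4 ≤ lam →
      ∃ c : ℝ, 0 ≤ c ∧ c < 1 ∧ ClassSigma (fun z => z - (1 - (c : ℂ) ^ 2) / (z + c)) ∧
        integralMean lam r (fun z => 1 - (z ^ 2)⁻¹) <
          integralMean lam r (deriv (fun z => z - (1 - (c : ℂ) ^ 2) / (z + c)))) :=
  ⟨fun _ hl h => sigma_deriv_upto hl hr hε hεr h,
    fun lam h => sigma_deriv_beyond (lt_of_lt_of_le (by positivity) h) hr hε hεr h⟩

end Pool.Agent.Results.MP_56f757_an.DerivThreshold
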