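import Pool.Agent.H93.MR.FS

set_option autoImplicit false

/-!
The first half of Q1 of MP_56f757_an for all orders `lam ≥ 7/4` and all radii `r > 1`, for all
orders `lam > 0` and all radii `r ≥ 8/5`, and for all orders `lam ≥ 3/2` and radii `r ≥ 4/3`: the
maximum over the class Sigma of the integral mean of order `lam` of `F` on `|z| = r` is attained by
the functions `z + c / z`, `|c| = 1`, and by no other function.

Ideas of the proof.

Orders `lam ≥ 2`.  Write `y ^ (lam / 2)` as a mixture of the kernels
`P x y = (y - x - x log (y / x))_+`, `x > 0`.  For `J z = z + 1/z` and `F` in the class, let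
`D t x` be the difference of the integrals of `P x |F| ^ 2` and `P x |J| ^ 2` over `|z| = exp t`.
If `D` is positive somewhere, it has a positive maximum (radius one is treated with symmetrisation,
the boundary with the area principle), and there the first and second order conditions hold.  The
arcs where `|F| ^ 2 > x` are then compared with the two arcs for `J`: energy inequalities on every
arc (with the eigenfunctions of the harmonic oscillator and the covering inequality
`|∫ F| ≤ 4 cosh t sin (length / 2)` for integrals over arcs), a rearrangement which merges all arcs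
but one, and inequalities in two real variables exclude the contact.  Low levels, and all levels for
`t ≥ 3/2`, are treated directly with the area principle, Jensen's formula and the sharp first order
kernel estimate.

Orders `7/4 ≤ lam < 2`, and `3/2 ≤ lam < 2` with `r ≥ 4/3`.  The function
`h t β = 2 cosh t sin β - (1/2) ∫_(-β)^β Re F (exp (t + i θ)) dθ` is harmonic and nonnegative in the
half strip (the covering inequality above); Green's formula there, with a subharmonic weight, bounds
the linear term of the difference of the means, and tangent inequalities bound the rest.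

Radii `r ≥ 8/5`, orders `lam = 2 k`, `0 < k ≤ 1`.  With `L f = ((1 + f) ^ k - 1) / k` and
`u F (1/u) = 1 + f`, the integral of `|1 + f| ^ (2 k)` is `2 π` plus `k ^ 2` times the integral of
`|L f| ^ 2`, which is expanded at `1 + b_1 u ^ 2`; the area principle and the bounds
`|Re b_n| ≤ n ^ 2 (1 - Re b_1)` (from `h ≥ 0`) control the remaining terms, uniformly in `k`.
-/

namespace Pool.Agent.Results.MP_56f757_an.FirstSupremum

open Pool.Agent.H15.Sig

/-- For every `lam > 0` and `r > 1` with `lam ≥ 7/4`, or `r ≥ 8/5`, or `lam ≥ 3/2` and `r ≥ 4/3`,
the maximum of the integral mean of order `lam` on the circle `|z| = r` over the class Sigma is the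
value for `z + 1/z`, and the functions of Sigma that attain it are exactly the functions `z + c / z`
with `|c| = 1`. -/
theorem result (lam r : ℝ) (hl : 0 < lam) (hr : 1 < r)
    (h : 7 / 4 ≤ lam ∨ 8 / 5 ≤ r ∨ (3 / 2 ≤ lam ∧ 4 / 3 ≤ r)) :
    IsGreatest {x : ℝ | ∃ F : ℂ → ℂ, ClassSigma F ∧ x = integralMean lam r F}
      (integralMean lam r (fun z => z + z⁻¹)) ∧
    ∀ F : ℂ → ℂ, ClassSigma F →
      (integralMean lam r F = integralMean lam r (fun z => z + z⁻¹) ↔
        ∃ c : ℂ, ‖c‖ = 1 ∧ ∀ z : ℂ, 1 < ‖z‖ → F z = z + c / z) :=
  Pool.Agent.H93.MR.first_sup hl hr h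

end Pool.Agent.Results.MP_56f757_an.FirstSupremum
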