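import Pool.Agent.H15.DP.Fin2
import Pool.Agent.H15.NX.Rd
import Pool.Agent.H93.MR.Dn

set_option autoImplicit false

/-!
The second supremum of Q1 of MP_56f757_an: the function `z + 1/z` is extremal for the derivative for
all radii `r ≥ 2` and all orders up to `max 2 (r ^ 4 / 16)`, and it is not extremal, for any order,
for `1 < r ≤ 5 / 4`.

Positive part. After a rotation `b_1 = β ≥ 0`. Two regimes. (A) `β` not close to 1: convexity of
`|w| ^ lam` and Littlewood's subordination principle (with a gap) compare `F'` with `1 - z^{-2}`.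
(B) `β` close to 1 (or `lam ≤ 2`): second order expansion of the moment around `1 - β z^{-2}`; the
linear term is controlled by `|Re b_n| ≤ n ^ 2 (1 - β)`, which comes from a sharp inequality for the
omitted set, and by Grunsky's inequality for `b_3`; the quadratic term by the area theorem.

Negative part. The three-fold symmetric function `z (1 + z^{-3}) ^ (2/3)` has a derivative whose
logarithm has the same mean and a larger quadratic mean on the circle, and the two distributions
cross twice; hence the mean of every order is larger.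
-/

namespace Pool.Agent.Results.MP_56f757_an.SecondSupremum

open Pool.Agent.H15.Sig

/-- Let `lam > 0`. For `r ≥ 2` and `lam ≤ max 2 (r ^ 4 / 16)` the supremum over the class Sigma of the
integral mean of order `lam` of the derivative on `|z| = r` is attained by `z + 1/z`, and the
functions attaining it are exactly the `z + c / z` with `|c| = 1`. For `1 < r ≤ 5 / 4` the function
`z (1 + z^{-3}) ^ (2/3)`, which is in the class Sigma, gives a larger mean than `z + 1/z`. -/
theorem result (lam r : ℝ) (hl : 0 < lam) :
    (2 ≤ r → lam ≤ max 2 (r ^ 4 / 16) →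
      IsGreatest {x : ℝ | ∃ F : ℂ → ℂ, ClassSigma F ∧ x = integralMean lam r (deriv F)}
        (integralMean lam r (fun z => 1 - (z ^ 2)⁻¹)) ∧
      ∀ F : ℂ → ℂ, ClassSigma F →
        (integralMean lam r (deriv F) = integralMean lam r (fun z => 1 - (z ^ 2)⁻¹) ↔
          ∃ c : ℂ, ‖c‖ = 1 ∧ ∀ z : ℂ, 1 < ‖z‖ → F z = z + c / z)) ∧
    (1 < r → r ≤ 5 / 4 →
      ClassSigma (fun z => z * (1 + (z ^ 3)⁻¹) ^ (2 / 3 : ℂ)) ∧
      integralMean lam r (fun z => 1 - (z ^ 2)⁻¹) <
        integralMean lam r (deriv (fun z => z * (1 + (z ^ 3)⁻¹) ^ (2 / 3 : ℂ)))) :=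
  ⟨fun hr h => Pool.Agent.H15.DP.sigma_deriv5_of
    (fun _ _ hp hp1 hx0 hx => Pool.Agent.H93.MR.IntD_le_one hp hp1 hx0 hx) hl hr (le_max_iff.1 h),
    fun hr hr1 => ⟨Pool.Agent.H15.NX.classSigma_F3,
      Pool.Agent.H15.NX.deriv_small_radius hl hr hr1⟩⟩

end Pool.Agent.Results.MP_56f757_an.SecondSupremum
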