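import Pool.Agent.H15.Sig.Small

set_option autoImplicit false

/-!
The first supremum of Q1 of MP_56f757_an for exponents `lam < 4/3` and radii close to `1`: it is not
attained by `z + 1/z`.

On `|z| = 1` the competitor `z - (1 - c ^ 2) / (z + c)` has squared modulus
`c ^ 2 + 4 (1 - c ^ 2) sin ^ 2 φ` in a suitable angle variable `φ`, and the mean of its `lam / 2`-th
power increases with `c` near `c = 0` when `lam < 4/3`.
-/

namespace Pool.Agent.Results.MP_56f757_an.SmallExponent

open Pool.Agent.H15.Sig

/-- For every `0 < lam < 4/3` there are `0 < c < 1` and `r1 > 1` such that for all `1 < r < r1` the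
function `z - (1 - c ^ 2) / (z + c)`, which is in the class Sigma, has a larger integral mean of
order `lam` on `|z| = r` than `z + 1/z`. -/
theorem result (lam : ℝ) (hlam : 0 < lam) (hlam1 : lam < 4 / 3) :
    ∃ c r1 : ℝ, 0 < c ∧ c < 1 ∧ 1 < r1 ∧ ClassSigma (fun z => z - (1 - (c : ℂ) ^ 2) / (z + c)) ∧
      ∀ r : ℝ, 1 < r → r < r1 →
        integralMean lam r (fun z => z + z⁻¹) <
          integralMean lam r (fun z => z - (1 - (c : ℂ) ^ 2) / (z + c)) :=
  sigma_small hlam hlam1

end Pool.Agent.Results.MP_56f757_an.SmallExponent
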